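import Pool.Agent.H93.PF.TargetsD

/-!
# Row PA2 of pfs_modules: choice of the parameters (helper79)
-/

set_option autoImplicit false

open MeasureTheory Filter Topology Finset Pool.Agent.H93.PF

namespace Pool.Agent.H79.PF

theorem pf_PA2 (hPAR : T_PAR) : T_PA2 := by
  intro d m θ κ hthr h h' η β n₀ hh' hη hlt hβ hF
  obtain ⟨tl, h1, h2, h3, h4⟩ := hPAR d m θ κ hthr h (h' + 2 * η) β (max n₀ ⌈3 / η⌉₊)
    (by linarith) hlt hβ hF
  have hL3 : 3 ≤ η * tl.L := by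
    have e1 : (3 / η : ℝ) ≤ (⌈3 / η⌉₊ : ℝ) := Nat.le_ceil _
    have e2 : ((⌈3 / η⌉₊ : ℕ) : ℝ) ≤ (tl.L : ℝ) := by
      exact_mod_cast (le_max_right _ _).trans h1
    have e3 : 3 / η ≤ (tl.L : ℝ) := e1.trans e2
    rw [div_le_iff₀ hη] at e3
    linarith
  have hceil : ∀ x : ℝ, 0 ≤ x → (⌈Real.exp x⌉₊ : ℝ) ≤ 2 * Real.exp x := by
    intro x hx
    have e1 : (⌈Real.exp x⌉₊ : ℝ) < Real.exp x + 1 := Nat.ceil_lt_add_one (Real.exp_pos x).le
    have e2 : 1 ≤ Real.exp x := Real.one_le_exp hx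
    linarith
  refine ⟨tl, fun g => ⌈Real.exp (h' * g)⌉₊, ⌈Real.exp (η * tl.L)⌉₊,
    (le_max_left _ _).trans h1, h2, h3, Nat.le_ceil _, fun g hg => ⟨Nat.le_ceil _, ?_⟩⟩
  have hgL : (tl.L : ℝ) ≤ g := by
    rcases hg with rfl | rfl
    · exact le_refl _
    · push_cast
      linarith
  have hg0 : (0 : ℝ) ≤ g := Nat.cast_nonneg g
  have h5 := h4 g hg
  set N := (HH d m tl.M (g - tl.R)).card with hN
  have h6 : (((N / 240 : ℕ) : ℝ)) * 240 ≤ N := by
    exact_mod_cast Nat.div_mul_le_self N 240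
  have hq := hceil (η * tl.L) (by positivity)
  have hQ := hceil (h' * g) (by positivity)
  have he8 : 8 ≤ Real.exp (η * g) := by
    have e1 : (3 : ℝ) ≤ η * g := hL3.trans (mul_le_mul_of_nonneg_left hgL hη.le)
    have e2 : Real.exp 3 ≤ Real.exp (η * g) := Real.exp_le_exp.2 e1
    have e3 : (8 : ℝ) ≤ Real.exp 3 := by
      have e4 := Real.exp_one_gt_d9
      have e5 : Real.exp 3 = Real.exp 1 ^ 3 := by
        rw [← Real.exp_nat_mul]
        norm_num
      rw [e5]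
      calc (8 : ℝ) = 2 ^ 3 := by norm_num
        _ ≤ Real.exp 1 ^ 3 := pow_le_pow_left₀ (by norm_num) (by linarith) 3
    linarith
  have hsplit : Real.exp ((h' + 2 * η) * g) =
      Real.exp (h' * g) * Real.exp (η * g) * Real.exp (η * g) := by
    rw [← Real.exp_add, ← Real.exp_add]
    congr 1
    ring
  have heL : Real.exp (η * tl.L) ≤ Real.exp (η * g) :=
    Real.exp_le_exp.2 (mul_le_mul_of_nonneg_left hgL hη.le)
  have hmain : (120 * (2 * (⌈Real.exp (η * tl.L)⌉₊ : ℝ) * (2 * (⌈Real.exp (h' * g)⌉₊ : ℝ)))) ≤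
      (N : ℝ) := by
    set a := Real.exp (h' * g) with ha
    set b := Real.exp (η * g) with hb
    have ha0 : 0 < a := Real.exp_pos _
    have hb0 : 0 < b := Real.exp_pos _
    have hq' : (⌈Real.exp (η * tl.L)⌉₊ : ℝ) ≤ 2 * b := by linarith
    calc (120 * (2 * (⌈Real.exp (η * tl.L)⌉₊ : ℝ) * (2 * (⌈a⌉₊ : ℝ))))
        ≤ 120 * (2 * (2 * b) * (2 * (2 * a))) := by gcongr
      _ = 240 * (a * b * 8) := by ring
      _ ≤ 240 * (a * b * b) := by gcongr
      _ ≤ 240 * ((N / 240 : ℕ) : ℝ) := by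
          refine mul_le_mul_of_nonneg_left ?_ (by norm_num)
          rw [← hsplit]
          exact h5
      _ ≤ N := by linarith
  exact_mod_cast hmain

end Pool.Agent.H79.PF
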